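import Pool.Agent.Helper853.Bk.Final
import Pool.Agent.Helper853.Zm.Lelong

open MeasureTheory Filter
open scoped Topology ENNReal

namespace Pool.Agent.Results.MP_77766c_an.BergmanMass

open Pool.Agent.Helper853.Zm Pool.Agent.Helper853.Bk

/-- The Monge-Ampere measure of `φ` is well defined on the unit ball, and its mass at the origin
is `c`. -/
def HasPointMass {n : ℕ} (φ : (Fin n → ℂ) → EReal) (c : ℝ≥0∞) : Prop :=
  (∃ μ, HasMA (unitBall n) φ μ) ∧ ∀ μ, HasMA (unitBall n) φ μ → μ {0} = c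

/-- The convergence asked for in Q1, in dimension `n`: for every psh function `φ` on the unit ball
of `ℂ^n` with well-defined Monge-Ampere measure `μ`, for all orthonormal bases `(f_{k,j})_k` of
`H(jφ)` and all `μ'_j` that are the Monge-Ampere measure of the potential
`φ_j = (1/(2j)) log ∑_k |f_{k,j}|^2` (for `j ≥ 1`), the masses `μ'_j({0})` tend to `μ({0})`. -/
def DemaillyConvergence (n : ℕ) : Prop :=
  ∀ (φ : (Fin n → ℂ) → EReal) (μ : Measure (Fin n → ℂ)),
    IsPshOn (unitBall n) φ → HasMA (unitBall n) φ μ →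
    ∀ (f : ℕ → ℕ → (Fin n → ℂ) → ℂ) (μ' : ℕ → Measure (Fin n → ℂ)),
      (∀ j, 1 ≤ j → IsONB φ j (f j) ∧ HasMA (unitBall n) (bergmanPotential j (f j)) (μ' j)) →
        Tendsto (fun j => μ' j {0}) atTop (𝓝 (μ {0}))

/-- Sanity check of the normalisation: the density of `(dd^c u)^n` for `u = (1/2) log (1 + |z|^2)`
has total mass `1` on `ℂ^n`. -/
theorem normalisation (n : ℕ) : ∫⁻ z : Fin n → ℂ, ENNReal.ofReal (maDensity
    (fun y => (1 / 2) * Real.log (1 + ∑ j, ‖y j‖ ^ 2)) z) = 1 :=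
  Pool.Agent.Helper853.lintegral_maDensity_fsPot

/-- The answer to Q1 is negative in every dimension `n ≥ 2`. More precisely, for every `n ≥ 2`
there is a psh function `φ` on the unit ball of `ℂ^n`, finite and continuous off the origin, with
well-defined Monge-Ampere measure of mass `1` at the origin, such that for every `j ≥ 1` the space
`H(jφ)` has an orthonormal basis, and for every orthonormal basis `(f_k)` of it the potential
`φ_j` is a smooth psh function on the ball, whose (well-defined) Monge-Ampere measure has mass `0`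
at the origin. -/
theorem result : ∀ n : ℕ, 2 ≤ n → ¬ DemaillyConvergence n ∧
    ∃ φ : (Fin n → ℂ) → EReal, IsPshOn (unitBall n) φ ∧
      (∀ z ∈ unitBall n, z ≠ 0 → φ z ≠ ⊥ ∧ ContinuousAt φ z) ∧ HasPointMass φ 1 ∧
      ∀ j : ℕ, 1 ≤ j → (∃ f, IsONB φ j f) ∧ ∀ f, IsONB φ j f →
        HasPointMass (bergmanPotential j f) 0 ∧ ∃ ψ, IsSmoothPshOn (unitBall n) ψ ∧
          ∀ z ∈ unitBall n, bergmanPotential j f z = (ψ z : EReal) := by
  intro n hn
  obtain ⟨m, rfl⟩ : ∃ m, n = m + 2 := ⟨n - 2, by omega⟩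
  have hpsh : IsPshOn (unitBall (m + 2)) (phi m) := by
    refine isPshOn_of_isPsh isPsh_phi ⟨Pi.single 0 (1 / 2 : ℂ), ?_, ?_⟩
    · have h : ∑ i, ‖(Pi.single 0 (1 / 2 : ℂ) : Fin (m + 2) → ℂ) i‖ ^ 2 = 1 / 4 := by
        rw [Finset.sum_eq_single 0]
        · simp
          norm_num
        · intro i _ hi
          rw [Pi.single_apply, if_neg hi]
          simp
        · simp
      show ∑ i, ‖(Pi.single 0 (1 / 2 : ℂ) : Fin (m + 2) → ℂ) i‖ ^ 2 < 1
      rw [h]
      norm_num
    · rw [phi_eq]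
      · exact EReal.coe_ne_bot _
      · intro h
        have h2 := congrFun h 0
        simp at h2
  have hma : HasMA (unitBall (m + 2)) (phi m) (Measure.dirac 0) := hasMA_phi _
  have honb : ∀ j : ℕ, 1 ≤ j → ∃ f, IsONB (phi m) j f := fun j hj =>
    (Pool.Agent.Helper853.Zm.Bk.goodWeight_phi hj).exists_onb 0
  refine ⟨?_, phi m, hpsh, ?_, ⟨⟨_, hma⟩, ?_⟩, ?_⟩
  · intro hconv
    choose f hf using honb
    choose μ hμ using fun (j : ℕ) (hj : 1 ≤ j) =>
      Pool.Agent.Helper853.Zm.Bk.hasMA_bergman hj (hf j hj)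
    have h1 := hconv (phi m) (Measure.dirac 0) hpsh hma
      (fun j => if hj : 1 ≤ j then f j hj else fun _ _ => 0)
      (fun j => if hj : 1 ≤ j then μ j hj else 0) (by
        intro j hj
        simp only [dif_pos hj]
        exact ⟨hf j hj, (hμ j hj).1⟩)
    have h2 : Tendsto (fun j : ℕ => (if hj : 1 ≤ j then μ j hj else 0 :
        Measure (Fin (m + 2) → ℂ)) {0}) atTop (𝓝 0) := by
      apply tendsto_const_nhds.congr'
      filter_upwards [eventually_ge_atTop 1] with j hj
      rw [dif_pos hj, (hμ j hj).2]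
    have h3 := tendsto_nhds_unique h1 h2
    simp at h3
  · intro z _ hz
    refine ⟨by rw [phi_eq hz]; exact EReal.coe_ne_bot _, ?_⟩
    have h1 : ContinuousAt (fun x => (Vc m x : EReal)) z :=
      continuous_coe_real_ereal.continuousAt.comp
        (continuousOn_Vc.continuousAt (isOpen_compl_singleton.mem_nhds hz))
    refine h1.congr ?_
    filter_upwards [isOpen_compl_singleton.mem_nhds hz] with x hx
    rw [phi_eq hx]
  · intro μ hμ
    rw [Pool.Agent.Helper853.Zm.Bk.hasMA_unique isOpen_unitBall zero_mem_unitBall hμ hma]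
    simp
  · intro j hj
    refine ⟨honb j hj, ?_⟩
    intro f hf
    obtain ⟨μ, hμ, hμ0⟩ := Pool.Agent.Helper853.Zm.Bk.hasMA_bergman hj hf
    refine ⟨⟨⟨μ, hμ⟩, ?_⟩, Pool.Agent.Helper853.Zm.Bk.bergman_smooth hj hf⟩
    intro ν hν
    rw [Pool.Agent.Helper853.Zm.Bk.hasMA_unique isOpen_unitBall zero_mem_unitBall hν hμ, hμ0]

end Pool.Agent.Results.MP_77766c_an.BergmanMass
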